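import Pool.Agent.Helper49.LC.St

/-!
Project LC (MP_58b586_gt), module VFW: Moser's vector field near the plane.
-/

set_option autoImplicit false

namespace Pool.Agent.Helper29.LC

open Pool.Agent.Helper14.LK Pool.Agent.Helper49.LC
open scoped ContDiff Topology
open MeasureTheory Set Filter

/-- the pulled back form as a function of the linear map -/
private noncomputable def pbk {n : ℕ} (A : WW n →L[ℝ] WW n) : WW n →L[ℝ] (WW n →L[ℝ] ℝ) :=
  ((ContinuousLinearMap.compL ℝ (WW n) (WW n) ℝ).flip A).comp ((omL n).comp A)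

private lemma pbk_apply {n : ℕ} (A : WW n →L[ℝ] WW n) (a b : WW n) :
    pbk A a b = om (A a) (A b) := by
  simp [pbk]

private lemma contDiff_pbk {n : ℕ} : ContDiff ℝ ∞ (fun A : WW n →L[ℝ] WW n => pbk A) := by
  unfold pbk
  exact ((ContinuousLinearMap.compL ℝ (WW n) (WW n) ℝ).flip.contDiff).clm_comp
    (contDiff_const.clm_comp contDiff_id)

/-- the interpolated form -/
private noncomputable def Bf {n : ℕ} (β : ℝ) (A : WW n →L[ℝ] WW n) :
    WW n →L[ℝ] (WW n →L[ℝ] ℝ) := (1 - β) • omL n + β • pbk A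

private lemma Bf_apply {n : ℕ} (β : ℝ) (A : WW n →L[ℝ] WW n) (a b : WW n) :
    Bf β A a b = (1 - β) * om a b + β * om (A a) (A b) := by
  simp [Bf, pbk_apply]

private lemma omL_equiv (n : ℕ) : ∃ e : WW n ≃L[ℝ] (WW n →L[ℝ] ℝ),
    (e : WW n →L[ℝ] (WW n →L[ℝ] ℝ)) = omL n := by
  have hinj : Function.Injective (omL n : WW n →ₗ[ℝ] (WW n →L[ℝ] ℝ)) := by
    rw [injective_iff_map_eq_zero]
    intro a ha
    by_contra hne
    have e : omL n a (JJ a) = 0 := by
      have : omL n a = 0 := ha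
      rw [this]; rfl
    rw [omL_apply] at e
    have p1 := om_pos_self hne
    linarith
  have hdim : Module.finrank ℝ (WW n) = Module.finrank ℝ (WW n →L[ℝ] ℝ) := by
    rw [← (LinearMap.toContinuousLinearMap (𝕜 := ℝ) (E := WW n) (F' := ℝ)).finrank_eq]
    exact (Subspace.dual_finrank_eq (K := ℝ) (V := WW n)).symm
  refine ⟨(LinearMap.linearEquivOfInjective (omL n : WW n →ₗ[ℝ] (WW n →L[ℝ] ℝ)) hinj
    hdim).toContinuousLinearEquiv, ?_⟩
  exact ContinuousLinearMap.ext fun a => rfl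

private lemma Bf_om {n : ℕ} (r : ℝ) (A : WW n →L[ℝ] WW n)
    (hA : ∀ a b, om (A a) (A b) = om a b) : Bf r A = omL n := by
  refine ContinuousLinearMap.ext fun a => ContinuousLinearMap.ext fun b => ?_
  rw [Bf_apply, omL_apply, hA]
  ring

private lemma deriv_beta (t : ℝ) (ht : t ∉ Set.Icc (0 : ℝ) 1) :
    deriv Real.smoothTransition t = 0 := by
  rcases lt_or_ge t 0 with h | h
  · have hm : IsLocalMin Real.smoothTransition t := by
      refine Filter.Eventually.of_forall fun x => ?_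
      rw [Real.smoothTransition.zero_of_nonpos h.le]
      exact Real.smoothTransition.nonneg x
    exact hm.deriv_eq_zero
  · have h1 : 1 ≤ t := by
      by_contra h2
      exact ht ⟨h, (not_le.1 h2).le⟩
    have hm : IsLocalMax Real.smoothTransition t := by
      refine Filter.Eventually.of_forall fun x => ?_
      rw [Real.smoothTransition.one_of_one_le h1]
      exact Real.smoothTransition.le_one x
    exact hm.deriv_eq_zero

theorem hVFW : StVFW := by
  intro n F σ R hF hσ hFR hσR hσ0 hom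
  obtain ⟨β, hβ⟩ : ∃ β : ℝ → ℝ, β = Real.smoothTransition := ⟨_, rfl⟩
  have hβs : ContDiff ℝ ∞ β := hβ ▸ Real.smoothTransition.contDiff
  have hb0 : ∀ t, 0 ≤ β t := hβ ▸ Real.smoothTransition.nonneg
  have hb1 : ∀ t, β t ≤ 1 := hβ ▸ Real.smoothTransition.le_one
  have hdb : ∀ t, t ∉ Set.Icc (0 : ℝ) 1 → deriv β t = 0 := hβ ▸ deriv_beta
  have hdβ : ContDiff ℝ ∞ (deriv β) := (contDiff_infty_iff_deriv.1 hβs).2
  -- the forms
  obtain ⟨B, hB⟩ : ∃ B : ℝ × WW n → (WW n →L[ℝ] (WW n →L[ℝ] ℝ)),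
    B = fun p => Bf p.1 (fderiv ℝ F p.2) := ⟨_, rfl⟩
  have hDF : ContDiff ℝ ∞ (fun p : ℝ × WW n => fderiv ℝ F p.2) := by
    have h1 : ContDiff ℝ ∞ (fderiv ℝ F) := hF.fderiv_right (by simp)
    exact h1.comp contDiff_snd
  have hBs : ContDiff ℝ ∞ B := by
    have h1 : ContDiff ℝ ∞ (fun p : ℝ × WW n => p.1) := contDiff_fst
    have h2 : ContDiff ℝ ∞ (fun p : ℝ × WW n => pbk (fderiv ℝ F p.2)) :=
      contDiff_pbk.comp hDF
    have hbs : IsBoundedSMul ℝ (WW n →L[ℝ] WW n →L[ℝ] ℝ) :=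
      @NormedSpace.toIsBoundedSMul ℝ (WW n →L[ℝ] WW n →L[ℝ] ℝ) _ _ _
    have h3 : ContDiff ℝ ∞ (fun p : ℝ × WW n => (1 - p.1) • omL n) :=
      ContDiff.smul (contDiff_const.sub h1) contDiff_const
    have h4 : ContDiff ℝ ∞ (fun p : ℝ × WW n => p.1 • pbk (fderiv ℝ F p.2)) :=
      ContDiff.smul h1 h2
    rw [hB]
    exact h3.add h4
  -- the set where the form is invertible
  obtain ⟨O, hO⟩ : ∃ O : Set (ℝ × WW n), O = {p | B p ∈ Set.range
    ((↑) : (WW n ≃L[ℝ] (WW n →L[ℝ] ℝ)) → (WW n →L[ℝ] (WW n →L[ℝ] ℝ)))} := ⟨_, rfl⟩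
  have hOo : IsOpen O := by
    rw [hO]
    exact (ContinuousLinearEquiv.isOpen (𝕜 := ℝ) (E := WW n) (F := WW n →L[ℝ] ℝ)).preimage
      hBs.continuous
  have hom2 : ∀ r : ℝ, ∀ w : WW n, (∀ a b, om (fderiv ℝ F w a) (fderiv ℝ F w b) = om a b) →
      (r, w) ∈ O := by
    intro r w h
    rw [hO]
    obtain ⟨e, he⟩ := omL_equiv n
    refine ⟨e, ?_⟩
    rw [he, hB]
    exact (Bf_om r _ h).symm
  have hplane : ∀ r : ℝ, ∀ x : EE n, (r, ((x, 0) : WW n)) ∈ O := fun r x => hom2 r _ (hom x)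
  have hfar : ∀ r : ℝ, ∀ w : WW n, R ≤ ‖w.1‖ → (r, w) ∈ O := by
    intro r w h
    refine hom2 r w (fun a b => ?_)
    rw [hFR w a h, hFR w b h]
  -- the radius
  obtain ⟨δ, hδ, hδO⟩ : ∃ δ : ℝ, 0 < δ ∧ ∀ r ∈ Set.Icc (0 : ℝ) 1, ∀ w : WW n, ‖w.2‖ < δ →
      (r, w) ∈ O := by
    have hc : IsCompact (Set.Icc (0 : ℝ) 1 ×ˢ Metric.closedBall (0 : EE n) R) :=
      isCompact_Icc.prod (isCompact_closedBall 0 R)
    have hn : IsOpen {q : (ℝ × EE n) × EE n | (q.1.1, ((q.1.2, q.2) : WW n)) ∈ O} :=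
      hOo.preimage (by fun_prop)
    have hsub : (Set.Icc (0 : ℝ) 1 ×ˢ Metric.closedBall (0 : EE n) R) ×ˢ ({0} : Set (EE n)) ⊆
        {q : (ℝ × EE n) × EE n | (q.1.1, ((q.1.2, q.2) : WW n)) ∈ O} := by
      rintro ⟨⟨r, x⟩, y⟩ ⟨_, hy⟩
      have hy' : y = 0 := hy
      subst hy'
      exact hplane r x
    obtain ⟨u, v, _, hv, hu', hv', huv⟩ := generalized_tube_lemma hc isCompact_singleton hn hsub
    have h0 : (0 : EE n) ∈ v := hv' rfl
    obtain ⟨δ, hδ, hball⟩ := Metric.isOpen_iff.1 hv 0 h0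
    refine ⟨δ, hδ, fun r hr w hw => ?_⟩
    rcases le_or_gt R ‖w.1‖ with h | h
    · exact hfar r w h
    · have h1 : (r, w.1) ∈ u := hu' ⟨hr, by simpa using h.le⟩
      have h2 : w.2 ∈ v := hball (by simpa using hw)
      exact huv (Set.mk_mem_prod h1 h2)
  -- the cut off
  obtain ⟨b, hbr, hbR⟩ : ∃ b : ContDiffBump (0 : EE n), b.rIn = δ / 2 ∧ b.rOut = 3 * δ / 4 :=
    ⟨⟨δ / 2, 3 * δ / 4, by positivity, by linarith⟩, rfl, rfl⟩
  obtain ⟨V, hV⟩ : ∃ V : ℝ → WW n → WW n, V = fun t w =>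
    (-(b w.2 * deriv β t)) • (B (β t, w)).inverse (σ w) := ⟨_, rfl⟩
  have hVt : ∀ t w, t ∉ Set.Icc (0 : ℝ) 1 → V t w = 0 := by
    intro t w h
    rw [hV]
    simp only [hdb t h, mul_zero, neg_zero, zero_smul]
  have hVR : ∀ t w, R ≤ ‖w.1‖ → V t w = 0 := by
    intro t w h
    rw [hV]
    simp only [hσR w h, map_zero, smul_zero]
  have hVδ : ∀ t (w : WW n), 3 * δ / 4 ≤ ‖w.2‖ → V t w = 0 := by
    intro t w h
    have h1 : b w.2 = 0 := b.zero_of_le_dist (by rw [hbR, dist_zero_right]; exact h)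
    rw [hV]
    simp only [h1, zero_mul, neg_zero, zero_smul]
  have hVs : ContDiff ℝ ∞ (Function.uncurry V) := by
    rw [contDiff_iff_contDiffAt]
    rintro ⟨t, w⟩
    rcases lt_or_ge ‖w.2‖ δ with h | h
    · have hmem : (β t, w) ∈ O := hδO _ ⟨hb0 t, hb1 t⟩ w h
      rw [hO] at hmem
      obtain ⟨e, he⟩ := hmem
      have h3 : ContDiffAt ℝ ∞ ContinuousLinearMap.inverse (B (β t, w)) := by
        rw [← he]
        exact contDiffAt_map_inverse e
      have h4 : ContDiff ℝ ∞ (fun p : ℝ × WW n => B (β p.1, p.2)) :=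
        hBs.comp ((hβs.comp contDiff_fst).prodMk contDiff_snd)
      have hinv : ContDiffAt ℝ ∞ (fun p : ℝ × WW n => (B (β p.1, p.2)).inverse) (t, w) :=
        ContDiffAt.comp (g := ContinuousLinearMap.inverse)
          (f := fun p : ℝ × WW n => B (β p.1, p.2)) (t, w) h3 h4.contDiffAt
      have hσ2 : ContDiffAt ℝ ∞ (fun p : ℝ × WW n => σ p.2) (t, w) :=
        (hσ.comp contDiff_snd).contDiffAt
      have hb2 : ContDiffAt ℝ ∞ (fun p : ℝ × WW n => -(b p.2.2 * deriv β p.1)) (t, w) := by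
        have h5 : ContDiff ℝ ∞ (fun p : ℝ × WW n => b p.2.2) :=
          b.contDiff.comp (contDiff_snd.comp contDiff_snd)
        exact ((h5.mul (hdβ.comp contDiff_fst)).neg).contDiffAt
      have h6 : Function.uncurry V = fun p : ℝ × WW n =>
          (-(b p.2.2 * deriv β p.1)) • (B (β p.1, p.2)).inverse (σ p.2) := by
        rw [hV]
        rfl
      rw [h6]
      exact hb2.smul (hinv.clm_apply hσ2)
    · have hopen : IsOpen {p : ℝ × WW n | 3 * δ / 4 < ‖p.2.2‖} :=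
        isOpen_lt continuous_const (by fun_prop)
      have hmem : (t, w) ∈ {p : ℝ × WW n | 3 * δ / 4 < ‖p.2.2‖} := by
        show 3 * δ / 4 < ‖w.2‖
        linarith
      have hev : Function.uncurry V =ᶠ[𝓝 (t, w)] fun _ => (0 : WW n) := by
        filter_upwards [hopen.mem_nhds hmem] with p hp
        exact hVδ p.1 p.2 (le_of_lt hp)
      exact contDiffAt_const.congr_of_eventuallyEq hev
  have hVc : HasCompactSupport (Function.uncurry V) := by
    refine HasCompactSupport.intro (K := Set.Icc (0 : ℝ) 1 ×ˢ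
      (Metric.closedBall (0 : EE n) R ×ˢ Metric.closedBall (0 : EE n) (3 * δ / 4)))
      (isCompact_Icc.prod ((isCompact_closedBall 0 R).prod (isCompact_closedBall 0 _))) ?_
    rintro ⟨t, w⟩ hp
    show V t w = 0
    by_cases ht : t ∈ Set.Icc (0 : ℝ) 1
    · rcases le_or_gt R ‖w.1‖ with h | h
      · exact hVR t w h
      · rcases le_or_gt (3 * δ / 4) ‖w.2‖ with h' | h'
        · exact hVδ t w h'
        · exact absurd ⟨ht, by simpa using h.le, by simpa using h'.le⟩ hp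
    · exact hVt t w ht
  refine ⟨δ / 2, β, V, by positivity, hβs, ?_, ?_, hVs, hVc, ?_, hVR, hVt, ?_⟩
  · rw [hβ]
    exact Real.smoothTransition.zero
  · rw [hβ]
    exact Real.smoothTransition.one
  · intro t x
    rw [hV]
    simp only [hσ0 x, map_zero, smul_zero]
  · intro t w c hw
    have hb2 : b w.2 = 1 := b.one_of_mem_closedBall (by
      rw [hbr]
      simpa using hw.le)
    have hmem : (β t, w) ∈ O := hδO _ ⟨hb0 t, hb1 t⟩ w (by linarith)
    rw [hO] at hmem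
    obtain ⟨e, he⟩ := hmem
    have hBV : B (β t, w) (V t w) = (-deriv β t) • σ w := by
      rw [hV]
      simp only [map_smul, hb2, one_mul]
      congr 1
      rw [← he, ContinuousLinearMap.inverse_equiv]
      exact e.apply_symm_apply _
    have h := congrArg (fun L : WW n →L[ℝ] ℝ => L c) hBV
    have h2 : B (β t, w) = Bf (β t) (fderiv ℝ F w) := by rw [hB]
    simp only [h2] at h
    rw [Bf_apply] at h
    rw [h]
    simp

end Pool.Agent.Helper29.LC
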